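import Pool.Agent.MHP.Stmts

/-!
# MHP, row MAI: the main theorem
-/

set_option autoImplicit false

namespace Pool.Agent.MHP.H25

open Pool.Agent.HMT

theorem glue_sup {V W : Type} (S T : SimpleGraph W) (x : W) (Z : SimpleGraph V) (r : V) :
    glue S x ⊥ r ⊔ glue T x Z r = glue (S ⊔ T) x Z r := by
  ext p q
  rw [SimpleGraph.sup_adj, glue_adj_iff, glue_adj_iff, glue_adj_iff]
  constructor
  · rintro ((⟨a, b, h1, h2, h3⟩ | ⟨a, b, h1, h2, h3⟩) | (⟨a, b, h1, h2, h3⟩ | ⟨a, b, h1, h2, h3⟩))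
    · exact Or.inl ⟨a, b, h1, h2, Or.inl h3⟩
    · exact absurd h3 (by simp)
    · exact Or.inl ⟨a, b, h1, h2, Or.inr h3⟩
    · exact Or.inr ⟨a, b, h1, h2, h3⟩
  · rintro (⟨a, b, h1, h2, h3 | h3⟩ | ⟨a, b, h1, h2, h3⟩)
    · exact Or.inl (Or.inl ⟨a, b, h1, h2, h3⟩)
    · exact Or.inr (Or.inl ⟨a, b, h1, h2, h3⟩)
    · exact Or.inr (Or.inr ⟨a, b, h1, h2, h3⟩)

/-- the embedding of the vertices of the glued graph -/
noncomputable def ee {V W : Type} (r : V) (x : W) : V ↪ W ⊕ {v : V // v ≠ r} :=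
  ⟨emb r x, emb_injective r x⟩

theorem glue_map {V W : Type} (x : W) (Z : SimpleGraph V) (r : V) :
    glue (⊥ : SimpleGraph W) x Z r = Z.map (ee r x) := by
  ext p q
  rw [glue_adj_iff, SimpleGraph.map_adj]
  constructor
  · rintro (⟨a, b, h1, h2, h3⟩ | ⟨a, b, h1, h2, h3⟩)
    · exact absurd h3 (by simp)
    · exact ⟨a, b, h3, h1.symm, h2.symm⟩
  · rintro ⟨a, b, h3, h1, h2⟩
    exact Or.inr ⟨a, b, h1.symm, h2.symm, h3⟩

theorem glue_sup_map {V W : Type} (X : SimpleGraph W) (x : W) (Z : SimpleGraph V) (r : V) :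
    glue X x ⊥ r ⊔ Z.map (ee r x) = glue X x Z r := by
  rw [← glue_map, glue_sup, sup_bot_eq]

theorem tog_apply {V : Type} [Finite V] (C : SimpleGraph V) (F : SimpleGraph V → ℕ → ℤ) (i : ℕ) :
    tog C F i = tog C (fun Z => F Z i) := by
  unfold tog
  rw [Finset.sum_apply]
  rfl

/-- the value of `f1` -/
theorem ev1 (emb : EmbStmt) (P : GProp) {W : Type} [Finite W] (X : SimpleGraph W) (x : W)
    {V : Type} [Finite V] (C : SimpleGraph V) (r : V) :
    ev (f1 P) X ⊥ x C r = tog C (fun Z => mu P (glue X x Z r)) := by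
  unfold ev f1
  rw [glue_map]
  refine (emb V (W ⊕ {v : V // v ≠ r}) ℤ (ee r x) C
    (fun Y => mu P (glue X x ⊥ r ⊔ Y))).trans ?_
  simp only [glue_sup_map]

/-- the value of `f2` -/
theorem ev2 (P : GProp) {W : Type} [Finite W] (S T : SimpleGraph W) (x : W)
    {V : Type} [Finite V] (C : SimpleGraph V) (r : V) (i : ℕ) :
    ev (f2 P) S T x C r i = (hc P (glue (S ⊔ T) x C r) i : ℤ) := by
  unfold ev f2
  rw [glue_sup]

theorem iso_unit {V : Type} (C : SimpleGraph V) (r : V) :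
    Nonempty (C ≃g glue (⊥ : SimpleGraph Unit) () C r) := by
  refine ⟨⟨Equiv.ofBijective (emb r ()) ⟨emb_injective r (), ?_⟩, ?_⟩⟩
  · rintro (a | a)
    · exact ⟨r, emb_root r ()⟩
    · exact ⟨a.1, emb_of_ne r () a.1 a.2⟩
  · intro a b
    exact glue_adj_emb ⊥ () C r a b

theorem mu_iso (P : GProp) {V W : Type} [Finite V] [Finite W] (G : SimpleGraph V)
    (H : SimpleGraph W) (h : Nonempty (G ≃g H)) : mu P G = mu P H := by
  unfold mu
  have := P.iso G H h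
  by_cases h1 : P.mem G
  · rw [if_pos h1, if_pos (this.1 h1)]
  · rw [if_neg h1, if_neg (fun h2 => h1 (this.2 h2))]

/-- the second stage -/
theorem stage2 (gad : GadStmt) (inf : InfStmt) (tg : TogStmt) (cis : CisStmt) (P : GProp) (g : ℕ)
    (A B : PG) (hA : A.G.Connected) (hB : B.G.Connected) (hn : ¬ Nonempty (A.G ≃g B.G))
    (h2 : 2 ≤ Nat.card A.V) (sA : Spr g A.G) (sB : Spr g B.G)
    (hle : Nat.card B.G.edgeSet ≤ Nat.card A.G.edgeSet)
    (hr : ∀ X : PG, tog A.G (fun Z => mu P (glue X.G X.r Z A.r)) =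
      tog B.G (fun Z => mu P (glue X.G X.r Z B.r))) (N : ℕ) :
    ∃ G H : PG, ¬ Nonempty (G.G ≃g H.G) ∧ Nat.card G.V = Nat.card H.V ∧ N ≤ Nat.card G.V ∧
      Spr g G.G ∧ Spr g H.G ∧ ∀ i, hc P G.G i = hc P H.G i := by
  obtain ⟨c1, c2, c3, c4, c5, c6, c7⟩ := cis
  have hBB : PIso B.comp B := c5 B hB
  have hT : TRel (f2 P) A Unit (fun _ => B) 1 (fun _ => 1) := by
    refine ⟨hA, one_ne_zero, fun _ => ⟨?_, ?_⟩, ?_⟩
    · intro h
      obtain ⟨φ, _⟩ := c3 A B.comp B (c2 _ _ h) hBB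
      exact hn ⟨φ⟩
    · rw [c7 _ _ hBB]
      exact hle
    · intro W _ S T x
      simp only [one_smul, Finset.univ_unique, Finset.sum_singleton]
      funext i
      rw [tog_apply, tog_apply]
      simp only [ev2]
      exact tg P A B hA hB hr ⟨W, S ⊔ T, x⟩ i
  have hne : A.G ≠ ⊥ := by
    intro h
    have h3 := hA.preconnected
    rw [h, SimpleGraph.preconnected_bot_iff_subsingleton] at h3
    have := Finite.card_le_one_iff_subsingleton.2 h3
    omega
  obtain ⟨G, H, _, _, g3, g4, g5, g6, g7, g8⟩ := gad (ℕ → ℤ) (f2 P) (inf P).2 (by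
    intro n m hn0 hm
    funext i
    have := congrFun hm i
    simp only [Pi.smul_apply, Pi.zero_apply, smul_eq_mul, mul_eq_zero] at this
    rcases this with h | h
    · exact absurd h hn0
    · exact h) g A Unit (fun _ => B) 1 (fun _ => 1) hT hne sA (fun _ => sB) N
  refine ⟨G, H, g3, g4, g5, g6, g7, fun i => ?_⟩
  have h1 := congrFun (g8 Unit ⊥ ⊥ ()) i
  rw [ev2, ev2, sup_bot_eq] at h1
  have h3 : hc P (glue (⊥ : SimpleGraph Unit) () G.G G.r) i =
      hc P (glue (⊥ : SimpleGraph Unit) () H.G H.r) i := by exact_mod_cast h1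
  rw [Pool.Agent.HMT.H84.hci P _ _ G.G _ (iso_unit G.G G.r) i,
    Pool.Agent.HMT.H84.hci P _ _ H.G _ (iso_unit H.G H.r) i]
  exact h3

theorem mai (gad : GadStmt) (inf : InfStmt) (st1 : St1Stmt) (tg : TogStmt) (pla : PlaStmt)
    (psp : PspStmt) (emb : EmbStmt) (cis : CisStmt) : MaiStmt := by
  rintro P g ⟨A, L, hL, M, a, b, hAc, ha, sA, hM, hrow⟩
  obtain ⟨P', p1, p2, p3⟩ := psp P g
  obtain ⟨q1, q2, q3, q4, q5⟩ := pla
  have hrel : ∀ X : PG, a * mu P' (glue X.G X.r (plant A).G (plant A).r) =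
      ∑ l, b l * mu P' (glue X.G X.r (plant (M l)).G (plant (M l)).r) := by
    intro X
    by_cases hX : Spr g X.G
    · obtain ⟨X', x1, x2, x3⟩ := q5 X
      have e : ∀ C : PG, Spr g C.G → mu P' (glue X.G X.r (plant C).G (plant C).r) =
          mu P (glue X'.G X'.r C.G C.r) := by
        intro C hC
        rw [p2 X (plant C) hX (q2 C g hC)]
        exact (mu_iso P _ _ (x3 C)).symm
      rw [e A sA, hrow X' (x2 g hX) x1]
      refine Finset.sum_congr rfl fun l _ => ?_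
      rw [e (M l) (hM l).1]
    · rw [p3 X (plant A) hX, mul_zero]
      refine (Finset.sum_eq_zero fun l _ => ?_).symm
      rw [p3 X (plant (M l)) hX, mul_zero]
  have hT : TRel (f1 P') (plant A) L (fun l => plant (M l)) a b :=
    st1 P' (plant A) L (fun l => plant (M l)) a b (q1 A hAc).1 ha
      (fun l => ⟨fun h => (hM l).2.1 (q3 A (M l) hAc h), q4 A (M l) (hM l).2.2⟩) hrel
  obtain ⟨G, H, g1, g2, g3, g4, g5, g6, g7, g8⟩ := gad ℤ (f1 P') (inf P').1 (by
    intro n m hn0 hm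
    rw [smul_eq_mul, mul_eq_zero] at hm
    rcases hm with h | h
    · exact absurd h hn0
    · exact h) g (plant A) L (fun l => plant (M l)) a b hT (q1 A hAc).2 (q2 A g sA)
    (fun l => q2 (M l) g (hM l).1) 2
  have hr : ∀ X : PG, tog G.G (fun Z => mu P' (glue X.G X.r Z G.r)) =
      tog H.G (fun Z => mu P' (glue X.G X.r Z H.r)) := by
    intro X
    have h := g8 X.V X.G ⊥ X.r
    rw [ev1 emb, ev1 emb] at h
    exact h
  refine Pool.Agent.HMT.Fin.fin P fun N => ?_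
  rcases le_total (Nat.card H.G.edgeSet) (Nat.card G.G.edgeSet) with hle | hle
  · obtain ⟨G', H', k1, k2, k3, k4, k5, k6⟩ := stage2 gad inf tg cis P' g G H g1 g2 g3 g5 g6 g7
      hle hr N
    exact ⟨G'.V, H'.V, G'.fin, H'.fin, G'.G, H'.G, k3, k2, k1, fun i => by
      rw [p1 _ _ k4, p1 _ _ k5]
      exact k6 i⟩
  · obtain ⟨G', H', k1, k2, k3, k4, k5, k6⟩ := stage2 gad inf tg cis P' g H G g2 g1
      (fun ⟨φ⟩ => g3 ⟨φ.symm⟩) (g4 ▸ g5) g7 g6 hle (fun X => (hr X).symm) N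
    exact ⟨G'.V, H'.V, G'.fin, H'.fin, G'.G, H'.G, k3, k2, k1, fun i => by
      rw [p1 _ _ k4, p1 _ _ k5]
      exact k6 i⟩

end Pool.Agent.MHP.H25
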